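import Pool.Agent.Work.MP_129c4a_an.Fourier

/-!
Q1: for every infinite locally compact group `G` the bidual of the Fourier algebra `A(G)`, with
the first Arens product, has a non-zero Jacobson radical.
-/

namespace Pool.Agent.Work.MP_129c4a_an.Parked.Q1

open MeasureTheory Pool.Agent.Work.MP_129c4a_an

universe u

theorem result (G : Type u) [Group G] [TopologicalSpace G] [IsTopologicalGroup G]
    [LocallyCompactSpace G] [T2Space G] [Infinite G] [MeasurableSpace G] [BorelSpace G]
    (μ : Measure G) [μ.IsHaarMeasure] [μ.InnerRegularCompactLTTop] :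
    ∃ Ψ : ArensBidual (FourierAlgebra μ), Ψ ≠ 0 ∧ Ψ ∈ rad (ArensBidual (FourierAlgebra μ)) :=
  exists_rad μ (ι := Subtype.val)
    { injective := Subtype.val_injective
      range_eq := Subtype.range_val
      map_add := fun _ _ => rfl
      map_smul := fun _ _ => rfl
      map_mul := fun _ _ => rfl
      norm_eq := fun _ => rfl }

end Pool.Agent.Work.MP_129c4a_an.Parked.Q1
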